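import Pool.Agent.helper48.TH.Spec3
import Pool.Agent.helper25.TWO.FIN

/-!
# FNL: from bad events to the number of queries
-/

set_option autoImplicit false

namespace TP.TW

open DP MeasureTheory Finset

theorem FNL_card {α β : Type} [Fintype β] (U : β → Finset α) (p : α)
    {inst : DecidablePred fun x : β => p ∈ U x} {inst2 : ∀ x : β, Decidable (p ∈ U x)} :
    ((@Finset.filter β (fun x : β => p ∈ U x) inst univ).card : ℝ) =
      ∑ x : β, @ite ℝ (p ∈ U x) (inst2 x) 1 0 := by
  rw [card_filter]
  push_cast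
  refine sum_congr rfl fun x _ => ?_
  by_cases h : p ∈ U x
  · rw [if_pos h]
  · rw [if_neg h]

theorem FNL_ex {α β : Type} [Fintype α] [DecidableEq α] [Fintype β] (U : β → Finset α)
    {inst : ∀ p : α, DecidablePred fun x : β => p ∈ U x} :
    ∑ p : α, ((@Finset.filter β (fun x : β => p ∈ U x) (inst p) univ).card : ℝ) =
      ∑ x : β, (#(U x) : ℝ) := by
  have h1 : ∀ p : α, ((@Finset.filter β (fun x : β => p ∈ U x) (inst p) univ).card : ℝ) =
      ∑ x : β, if p ∈ U x then (1 : ℝ) else 0 := fun p => FNL_card U p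
  rw [sum_congr rfl fun p _ => h1 p, sum_comm]
  refine sum_congr rfl fun x _ => ?_
  rw [sum_boole]
  have h2 : (univ.filter fun p : α => p ∈ U x) = U x := by
    ext p
    simp
  rw [h2]

theorem FNL_prob : IsProbabilityMeasure P1 := by
  unfold P1
  infer_instance

theorem FNL (h1 : REA_stmt) (h2 : REB_stmt) (h3 : BR1_stmt) (h4 : BR2_stmt) : FNL_stmt := by
  intro n S C hn hS hC
  have := FNL_prob
  have key : ∀ p : Fin n × Fin n, 1 ≤
      Pr {β : V → Bool | p ∈ S (fun q => β (phi q)) ∪ C (fun q => β (phi q))} +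
      Pr {β | BAD (col β) ((S fun q => β (phi q)).image phi) (phi p)} := by
    intro p
    have hsub : (Set.univ : Set (V → Bool)) ⊆
        {β : V → Bool | p ∈ S (fun q => β (phi q)) ∪ C (fun q => β (phi q))} ∪
        {β | BAD (col β) ((S fun q => β (phi q)).image phi) (phi p)} := by
      intro β _
      by_cases hp : p ∈ S (fun q => β (phi q)) ∪ C (fun q => β (phi q))
      · exact Or.inl hp
      · by_cases hb : BAD (col β) ((S fun q => β (phi q)).image phi) (phi p)
        · exact Or.inr hb
        · exfalso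
          have hpS : p ∉ S (fun q => β (phi q)) := fun h => hp (mem_union_left _ h)
          obtain ⟨-, y, y', hy, hy', hcy, hcy'⟩ :=
            rel_of_not_bad h1 h2 h3 hn (S fun q => β (phi q)) β p hpS hb
          obtain ⟨h5, h6⟩ := hS (fun q => β (phi q)) y (fun q hq => (hy q hq).symm)
          refine hcy' ((hC y y' ?_).1 hcy)
          intro q hq
          rw [h5, h6] at hq
          have h7 : q ≠ p := by
            rintro rfl
            exact hp hq
          exact (hy' q h7).symm
    have e1 : (1 : ℝ) = P1.real Set.univ := by simp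
    have e2 : P1.real Set.univ ≤ P1.real
        ({β : V → Bool | p ∈ S (fun q => β (phi q)) ∪ C (fun q => β (phi q))} ∪
        {β | BAD (col β) ((S fun q => β (phi q)).image phi) (phi p)}) := measureReal_mono hsub
    have e3 := measureReal_union_le (μ := P1)
      {β : V → Bool | p ∈ S (fun q => β (phi q)) ∪ C (fun q => β (phi q))}
      {β | BAD (col β) ((S fun q => β (phi q)).image phi) (phi p)}
    unfold Pr
    linarith
  have hsum := sum_le_sum fun (p : Fin n × Fin n) (_ : p ∈ univ) => key p
  rw [sum_add_distrib] at hsum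
  have e4 : ∑ _p : Fin n × Fin n, (1 : ℝ) = (n : ℝ) ^ 2 := by
    simp [sq]
  have e5 : ∑ p : Fin n × Fin n,
      Pr {β : V → Bool | p ∈ S (fun q => β (phi q)) ∪ C (fun q => β (phi q))} =
      (∑ x : Fin n × Fin n → Bool, (#(S x ∪ C x) : ℝ)) / 2 ^ (n * n) := by
    have e6 : ∀ p : Fin n × Fin n,
        Pr {β : V → Bool | p ∈ S (fun q => β (phi q)) ∪ C (fun q => β (phi q))} = _ :=
      fun p => h4 n (fun x => p ∈ S x ∪ C x)
    rw [sum_congr rfl fun p _ => e6 p, ← sum_div]
    congr 1
    exact FNL_ex (fun x => S x ∪ C x)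
  have e7 : ∑ v₀ ∈ (univ : Finset (Fin n × Fin n)).image phi,
      Pr {β | BAD (col β) ((S fun q => β (phi q)).image phi) v₀} =
      ∑ p : Fin n × Fin n, Pr {β | BAD (col β) ((S fun q => β (phi q)).image phi) (phi p)} := by
    rw [sum_image fun p _ q _ h => phi_inj h]
  rw [e7, ← e5, ← e4]
  exact hsum

end TP.TW
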